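import Pool.Agent.Lib.MP_6bd702_perc_h60.BK
import Pool.Agent.Lib.MP_6bd702_percw.RswC
import Pool.Agent.Lib.MP_6bd702_percd.Base

/-!
# The number of strands which cross a rectangle

Disjoint occurrence for configurations of the face grid, `k` different strands from the left to the
right side of a rectangle give `(k + 1) / 2` disjoint crossings of one colour.
-/

set_option autoImplicit false

namespace Pool.Agent.PercN

open Finset Pool.Agent.Perc Pool.Agent.PercD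

/-! ### Disjoint occurrence for configurations -/

/-- `k` disjoint witnesses of the increasing event `A` in `S`. -/
def Wit (D : ℤ × ℤ → Bool) (S : Finset (ℤ × ℤ)) (A : Set Cfg) (k : ℕ) : Set Cfg :=
  {ω | ∃ K : Fin k → Finset (ℤ × ℤ), (∀ i, K i ⊆ S) ∧ (∀ i, ∀ f ∈ K i, flip D ω f = true) ∧
    (∀ i j, i ≠ j → Disjoint (K i) (K j)) ∧ ∀ i, flip D (cfg (K i)) ∈ A}

theorem flip_flip (D : ℤ × ℤ → Bool) (ω : Cfg) : flip D (flip D ω) = ω := by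
  funext f
  unfold Perc.flip
  rw [← Bool.xor_assoc, Bool.xor_self, Bool.false_xor]

theorem depOn_Wit (D : ℤ × ℤ → Bool) (S : Finset (ℤ × ℤ)) (A : Set Cfg) (k : ℕ) :
    DepOn (S : Set (ℤ × ℤ)) (Wit D S A k) := by
  have key : ∀ ω ω' : Cfg, (∀ f ∈ (S : Set (ℤ × ℤ)), ω f = ω' f) → ω ∈ Wit D S A k →
      ω' ∈ Wit D S A k := by
    rintro ω ω' h ⟨K, h1, h2, h3, h4⟩
    refine ⟨K, h1, fun i f hf => ?_, h3, h4⟩
    have := h2 i f hf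
    unfold Perc.flip at this ⊢
    rw [← h f (h1 i hf)]
    exact this
  exact fun ω ω' h => ⟨key ω ω' h, key ω' ω fun f hf => (h f hf).symm⟩

theorem pr_Wit_le {D : ℤ × ℤ → Bool} {S : Finset (ℤ × ℤ)} {A : Set Cfg}
    (hA : DepOn (S : Set (ℤ × ℤ)) A) (hI : IncD D A) (k : ℕ) :
    pr S (Wit D S A k) ≤ (pr S A) ^ k := by
  classical
  set A' : Set (Finset (ℤ × ℤ)) := {T | flip D (cfg T) ∈ A} with hA'
  have hUp : BK.Up A' := by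
    intro T T' hTT hT
    refine hI _ _ (fun f hf => ?_) hT
    rw [flip_flip] at hf ⊢
    unfold cfg at hf ⊢
    rw [decide_eq_true_eq] at hf ⊢
    exact hTT hf
  have h1 : pr S (Wit D S A k) = pr S {ω | flip D ω ∈ Wit D S A k} :=
    (pr_flip D (depOn_Wit D S A k)).symm
  have h2 : pr S A = pr S {ω | flip D ω ∈ A} := (pr_flip D hA).symm
  have e1 : ∀ X : Set Cfg, pr S {ω | flip D ω ∈ X} =
      BK.cnt S {T | flip D (cfg T) ∈ X} / 2 ^ S.card := by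
    intro X
    unfold pr BK.cnt
    congr 2
  rw [h1, h2, e1, e1]
  refine le_trans ?_ (BK.bk_pow S hUp k)
  refine div_le_div_of_nonneg_right (BK.cnt_mono S ?_) (by positivity)
  rintro T hT ⟨K, k1, k2, k3, k4⟩
  refine BK.mem_boxPow K (fun i f hf => ?_) k3 k4
  have := k2 i f hf
  rw [flip_flip] at this
  unfold cfg at this
  rw [decide_eq_true_eq] at this
  exact this

/-! ### Disjoint crossings -/

/-- `k` left-right crossings of colour `c` in disjoint sets of faces. -/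
def DisLR (k : ℕ) (c x₀ x₁ y₀ y₁ : ℤ) : Set Cfg :=
  {ω | ∃ K : Fin k → Finset (ℤ × ℤ), (∀ i, K i ⊆ RF x₀ x₁ y₀ y₁) ∧
    (∀ i j, i ≠ j → Disjoint (K i) (K j)) ∧ ∀ i, ∃ u v : ℤ × ℤ, u.1 = x₀ ∧ y₀ ≤ u.2 ∧ u.2 ≤ y₁ ∧
      v.1 = x₁ ∧ (u.1 + u.2 - c) % 2 = 0 ∧ Conn ω (K i) u v}

/-- `k` bottom-top crossings of colour `c` in disjoint sets of faces. -/
def DisBT (k : ℕ) (c x₀ x₁ y₀ y₁ : ℤ) : Set Cfg :=
  {ω | ∃ K : Fin k → Finset (ℤ × ℤ), (∀ i, K i ⊆ RF x₀ x₁ y₀ y₁) ∧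
    (∀ i j, i ≠ j → Disjoint (K i) (K j)) ∧ ∀ i, ∃ u v : ℤ × ℤ, u.2 = y₀ ∧ x₀ ≤ u.1 ∧ u.1 ≤ x₁ ∧
      v.2 = y₁ ∧ (u.1 + u.2 - c) % 2 = 0 ∧ Conn ω (K i) u v}

/-- A bond of colour `c` in the open faces of colour `c`. -/
theorem conn_open {ω : Cfg} {c : ℤ} {K : Finset (ℤ × ℤ)} {F : Set (ℤ × ℤ)} {u v : ℤ × ℤ}
    (hKF : (K : Set (ℤ × ℤ)) ⊆ F) (hu : (u.1 + u.2 - c) % 2 = 0) (h : Conn ω K u v) :
    Conn (flip (parD c) (cfg (K.filter fun f => flip (parD c) ω f = true))) F u v := by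
  induction h with
  | refl => exact Relation.ReflTransGen.refl
  | tail hab hb ih =>
    rename_i p q
    refine ih.tail ?_
    have hp : (p.1 + p.2 - c) % 2 = 0 := by
      have h1 : par p = par u := (Conn.par_eq hab).symm
      unfold par at h1
      omega
    obtain ⟨x, y, hf, hh⟩ := hb
    have hD : flip (parD c) ω (x, y) = true := by
      unfold Perc.flip parD
      rcases hh with ⟨h1, ⟨rfl, rfl⟩ | ⟨rfl, rfl⟩⟩ | ⟨h1, ⟨rfl, rfl⟩ | ⟨rfl, rfl⟩⟩ <;>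
        simp only at hp <;> rw [h1] <;> simp <;> omega
    have he : flip (parD c) (cfg (K.filter fun f => flip (parD c) ω f = true)) (x, y) =
        ω (x, y) := by
      have h1 : cfg (K.filter fun f => flip (parD c) ω f = true) (x, y) = true := by
        unfold cfg
        rw [decide_eq_true_eq, mem_filter]
        exact ⟨hf, hD⟩
      unfold Perc.flip at hD ⊢
      unfold Perc.flip at h1
      rw [h1]
      revert hD
      cases parD c (x, y) <;> cases ω (x, y) <;> simp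
    exact ⟨x, y, hKF hf, by rw [he]; exact hh⟩

theorem wit_of_disLR {ω : Cfg} {k : ℕ} {c x₀ x₁ y₀ y₁ : ℤ} (h : ω ∈ DisLR k c x₀ x₁ y₀ y₁) :
    ω ∈ Wit (parD c) (RF x₀ x₁ y₀ y₁) (LR c x₀ x₁ y₀ y₁) k := by
  obtain ⟨K, h1, h2, h3⟩ := h
  refine ⟨fun i => (K i).filter fun f => flip (parD c) ω f = true,
    fun i => (filter_subset _ _).trans (h1 i), fun i f hf => (mem_filter.1 hf).2,
    fun i j hij => disjoint_filter_filter (h2 i j hij), fun i => ?_⟩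
  obtain ⟨u, v, e1, e2, e3, e4, e5, e6⟩ := h3 i
  exact ⟨u, v, e1, e2, e3, e4, e5, conn_open (by exact_mod_cast h1 i) e5 e6⟩

theorem wit_of_disBT {ω : Cfg} {k : ℕ} {c x₀ x₁ y₀ y₁ : ℤ} (h : ω ∈ DisBT k c x₀ x₁ y₀ y₁) :
    ω ∈ Wit (parD c) (RF x₀ x₁ y₀ y₁) (BT c x₀ x₁ y₀ y₁) k := by
  obtain ⟨K, h1, h2, h3⟩ := h
  refine ⟨fun i => (K i).filter fun f => flip (parD c) ω f = true,
    fun i => (filter_subset _ _).trans (h1 i), fun i f hf => (mem_filter.1 hf).2,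
    fun i j hij => disjoint_filter_filter (h2 i j hij), fun i => ?_⟩
  obtain ⟨u, v, e1, e2, e3, e4, e5, e6⟩ := h3 i
  exact ⟨u, v, e1, e2, e3, e4, e5, conn_open (by exact_mod_cast h1 i) e5 e6⟩

theorem depOn_disLR (k : ℕ) (c x₀ x₁ y₀ y₁ : ℤ) :
    DepOn (RF x₀ x₁ y₀ y₁ : Set (ℤ × ℤ)) (DisLR k c x₀ x₁ y₀ y₁) := by
  have key : ∀ ω ω' : Cfg, (∀ f ∈ (RF x₀ x₁ y₀ y₁ : Set (ℤ × ℤ)), ω f = ω' f) →
      ω ∈ DisLR k c x₀ x₁ y₀ y₁ → ω' ∈ DisLR k c x₀ x₁ y₀ y₁ := by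
    rintro ω ω' h ⟨K, h1, h2, h3⟩
    refine ⟨K, h1, h2, fun i => ?_⟩
    obtain ⟨u, v, e1, e2, e3, e4, e5, e6⟩ := h3 i
    exact ⟨u, v, e1, e2, e3, e4, e5,
      GridA.conn_congr _ (fun f hf => h f (by exact_mod_cast h1 i hf)) e6⟩
  exact fun ω ω' h => ⟨key ω ω' h, key ω' ω fun f hf => (h f hf).symm⟩

theorem depOn_disBT (k : ℕ) (c x₀ x₁ y₀ y₁ : ℤ) :
    DepOn (RF x₀ x₁ y₀ y₁ : Set (ℤ × ℤ)) (DisBT k c x₀ x₁ y₀ y₁) := by
  have key : ∀ ω ω' : Cfg, (∀ f ∈ (RF x₀ x₁ y₀ y₁ : Set (ℤ × ℤ)), ω f = ω' f) →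
      ω ∈ DisBT k c x₀ x₁ y₀ y₁ → ω' ∈ DisBT k c x₀ x₁ y₀ y₁ := by
    rintro ω ω' h ⟨K, h1, h2, h3⟩
    refine ⟨K, h1, h2, fun i => ?_⟩
    obtain ⟨u, v, e1, e2, e3, e4, e5, e6⟩ := h3 i
    exact ⟨u, v, e1, e2, e3, e4, e5,
      GridA.conn_congr _ (fun f hf => h f (by exact_mod_cast h1 i hf)) e6⟩
  exact fun ω ω' h => ⟨key ω ω' h, key ω' ω fun f hf => (h f hf).symm⟩

theorem pr_LR_lt (m : ℕ) : ∃ q : ℝ, 0 < q ∧ q < 1 ∧ ∀ c x₀ x₁ y₀ y₁ : ℤ, x₀ < x₁ → y₀ < y₁ →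
    y₁ - y₀ ≤ m * (x₁ - x₀) → pr (RF x₀ x₁ y₀ y₁) (LR c x₀ x₁ y₀ y₁) ≤ q := by
  obtain ⟨c, hc, h⟩ := rswF' m
  refine ⟨max (1 - c) (1 / 2), by positivity, max_lt (by linarith) (by norm_num), ?_⟩
  intro col x₀ x₁ y₀ y₁ hx hy hm
  refine le_trans ?_ (le_max_left _ _)
  have h2 := h (col + 1) x₀ x₁ y₀ y₁ hx hy hm
  have h3 : pr (RF x₀ x₁ y₀ y₁) (LR col x₀ x₁ y₀ y₁) ≤
      pr (RF x₀ x₁ y₀ y₁) (BT (col + 1) x₀ x₁ y₀ y₁)ᶜ :=
    pr_mono _ fun ω hω hb => not_lr_and_bt col hx hy ω ⟨hω, hb⟩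
  rw [pr_compl] at h3
  linarith

theorem pr_BT_lt (m : ℕ) : ∃ q : ℝ, 0 < q ∧ q < 1 ∧ ∀ c x₀ x₁ y₀ y₁ : ℤ, x₀ < x₁ → y₀ < y₁ →
    x₁ - x₀ ≤ m * (y₁ - y₀) → pr (RF x₀ x₁ y₀ y₁) (BT c x₀ x₁ y₀ y₁) ≤ q := by
  obtain ⟨q, h0, h1, h⟩ := pr_LR_lt m
  refine ⟨q, h0, h1, fun c x₀ x₁ y₀ y₁ hx hy hm => ?_⟩
  rw [pr_BT_eq]
  exact h c y₀ y₁ x₀ x₁ hy hx hm

/-- BK bound for the number of disjoint crossings in the short direction. -/
theorem pr_disLR_le (m : ℕ) : ∃ q : ℝ, 0 < q ∧ q < 1 ∧ ∀ (k : ℕ) (c x₀ x₁ y₀ y₁ : ℤ),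
    x₀ < x₁ → y₀ < y₁ → y₁ - y₀ ≤ m * (x₁ - x₀) →
    pr (RF x₀ x₁ y₀ y₁) (DisLR k c x₀ x₁ y₀ y₁) ≤ q ^ k := by
  obtain ⟨q, h0, h1, h⟩ := pr_LR_lt m
  refine ⟨q, h0, h1, fun k c x₀ x₁ y₀ y₁ hx hy hm => ?_⟩
  exact ((pr_mono _ fun ω hω => wit_of_disLR hω).trans
    (pr_Wit_le (depOn_LR c x₀ x₁ y₀ y₁) (incD_LR c x₀ x₁ y₀ y₁) k)).trans
    (pow_le_pow_left₀ (pr_nonneg _ _) (h c x₀ x₁ y₀ y₁ hx hy hm) k)

theorem pr_disBT_le (m : ℕ) : ∃ q : ℝ, 0 < q ∧ q < 1 ∧ ∀ (k : ℕ) (c x₀ x₁ y₀ y₁ : ℤ),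
    x₀ < x₁ → y₀ < y₁ → x₁ - x₀ ≤ m * (y₁ - y₀) →
    pr (RF x₀ x₁ y₀ y₁) (DisBT k c x₀ x₁ y₀ y₁) ≤ q ^ k := by
  obtain ⟨q, h0, h1, h⟩ := pr_BT_lt m
  refine ⟨q, h0, h1, fun k c x₀ x₁ y₀ y₁ hx hy hm => ?_⟩
  exact ((pr_mono _ fun ω hω => wit_of_disBT hω).trans
    (pr_Wit_le (depOn_BT c x₀ x₁ y₀ y₁) (incD_BT' c x₀ x₁ y₀ y₁) k)).trans
    (pow_le_pow_left₀ (pr_nonneg _ _) (h c x₀ x₁ y₀ y₁ hx hy hm) k)

/-! ### Clusters as witnesses -/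

variable {ω : Cfg} {x₀ x₁ y₀ y₁ c : ℤ} {u v w w' : ℤ × ℤ}

open Classical in
/-- The open faces of colour `c` of the cluster of `w`. -/
noncomputable def KC (ω : Cfg) (c x₀ x₁ y₀ y₁ : ℤ) (w : ℤ × ℤ) : Finset (ℤ × ℤ) :=
  (RF x₀ x₁ y₀ y₁).filter fun f => flip (parD c) ω f = true ∧
    ∃ p, IsCor f p ∧ (p.1 + p.2 - c) % 2 = 0 ∧ Conn ω (RF x₀ x₁ y₀ y₁) w p

theorem mem_KC {f : ℤ × ℤ} : f ∈ KC ω c x₀ x₁ y₀ y₁ w ↔ f ∈ RF x₀ x₁ y₀ y₁ ∧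
    flip (parD c) ω f = true ∧
    ∃ p, IsCor f p ∧ (p.1 + p.2 - c) % 2 = 0 ∧ Conn ω (RF x₀ x₁ y₀ y₁) w p := by
  classical
  unfold KC
  rw [mem_filter]

theorem conn_mod (h : Conn ω (RF x₀ x₁ y₀ y₁) u v) : (v.1 + v.2) % 2 = (u.1 + u.2) % 2 := by
  have := h.par_eq
  unfold par at this
  omega

theorem conn_KC (hw : (w.1 + w.2 - c) % 2 = 0) (h : Conn ω (RF x₀ x₁ y₀ y₁) w v) :
    Conn (flip (parD c) (cfg (KC ω c x₀ x₁ y₀ y₁ w))) (RF x₀ x₁ y₀ y₁) w v := by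
  induction h with
  | refl => exact Relation.ReflTransGen.refl
  | tail hab hb ih =>
    rename_i p q
    refine ih.tail ?_
    have hp : (p.1 + p.2 - c) % 2 = 0 := by
      have := conn_mod hab
      omega
    obtain ⟨x, y, hf, hh⟩ := hb
    have hD : flip (parD c) ω (x, y) = true := by
      unfold Perc.flip parD
      rcases hh with ⟨h1, ⟨rfl, rfl⟩ | ⟨rfl, rfl⟩⟩ | ⟨h1, ⟨rfl, rfl⟩ | ⟨rfl, rfl⟩⟩ <;>
        simp only at hp <;> rw [h1] <;> simp <;> omega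
    have hcor : IsCor (x, y) p := by
      unfold IsCor
      rcases hh with ⟨h1, ⟨rfl, rfl⟩ | ⟨rfl, rfl⟩⟩ | ⟨h1, ⟨rfl, rfl⟩ | ⟨rfl, rfl⟩⟩ <;> simp
    have hK : (x, y) ∈ KC ω c x₀ x₁ y₀ y₁ w :=
      mem_KC.2 ⟨hf, hD, p, hcor, hp, hab⟩
    have he : flip (parD c) (cfg (KC ω c x₀ x₁ y₀ y₁ w)) (x, y) = ω (x, y) := by
      have h1 : cfg (KC ω c x₀ x₁ y₀ y₁ w) (x, y) = true := by
        unfold cfg
        rw [decide_eq_true_eq]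
        exact hK
      unfold Perc.flip at hD ⊢
      rw [h1]
      revert hD
      cases parD c (x, y) <;> cases ω (x, y) <;> simp
    exact ⟨x, y, hf, by rw [he]; exact hh⟩

/-- Two corners of an open face of the colour of the face bond. -/
theorem bond_of_cor {f p q : ℤ × ℤ} (hf : flip (parD c) ω f = true) (hfR : f ∈ RF x₀ x₁ y₀ y₁)
    (hp : IsCor f p) (hq : IsCor f q) (hp2 : (p.1 + p.2 - c) % 2 = 0)
    (hq2 : (q.1 + q.2 - c) % 2 = 0) : Conn ω (RF x₀ x₁ y₀ y₁) p q := by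
  by_cases hpq : p = q
  · subst hpq
    exact Relation.ReflTransGen.refl
  refine Relation.ReflTransGen.single ?_
  obtain ⟨x, y⟩ := f
  refine ⟨x, y, hfR, ?_⟩
  obtain ⟨p1, p2⟩ := p
  obtain ⟨q1, q2⟩ := q
  unfold IsCor at hp hq
  unfold Perc.flip parD at hf
  simp only [Prod.mk.injEq, not_and] at hp hq hp2 hq2 hpq hf ⊢
  by_cases h : (x + y - c) % 2 = 0
  · have hω : ω (x, y) = true := by
      have : decide ((x + y - c) % 2 ≠ 0) = false := by simp [h]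
      rw [this, Bool.false_xor] at hf
      exact hf
    left
    refine ⟨hω, ?_⟩
    omega
  · have hω : ω (x, y) = false := by
      have : decide ((x + y - c) % 2 ≠ 0) = true := by simp [h]
      rw [this, Bool.true_xor, Bool.not_eq_true'] at hf
      exact hf
    right
    refine ⟨hω, ?_⟩
    omega

theorem KC_disjoint (h : ¬ Conn ω (RF x₀ x₁ y₀ y₁) w w') :
    Disjoint (KC ω c x₀ x₁ y₀ y₁ w) (KC ω c x₀ x₁ y₀ y₁ w') := by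
  rw [Finset.disjoint_left]
  intro f hf hf'
  obtain ⟨h1, h2, p, h3, h4, h5⟩ := mem_KC.1 hf
  obtain ⟨-, -, p', h3', h4', h5'⟩ := mem_KC.1 hf'
  exact h (h5.trans ((bond_of_cor h2 h1 h3 h3' h4 h4').trans (Conn.symm h5')))

/-! ### Terminal unit edges -/

/-- At most one of the two faces of the unit edge is in `F`. -/
def BdF (F : Set (ℤ × ℤ)) (a : UE) : Prop :=
  ∀ d, Tips.ahead (a, d) ∈ F → Tips.ahead (a, !d) ∉ F

/-- A component contains at most one boundary unit edge different from the boundary unit edge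
`e`. -/
theorem other_unique {F : Set (ℤ × ℤ)} {e t t' : UE} (he : BdF F e) (ht : t ∈ MM ω F e)
    (ht' : t' ∈ MM ω F e) (hb : BdF F t) (hb' : BdF F t') (h : t ≠ e) (h' : t' ≠ e) : t = t' := by
  obtain ⟨s₀, hs⟩ : ∃ s₀, Tips.ahead (e, s₀) ∉ F := by
    by_cases h : Tips.ahead (e, true) ∈ F
    · exact ⟨_, he true h⟩
    · exact ⟨true, h⟩
  have reach : ∀ {t : UE}, t ∈ MM ω F e → t ≠ e → BdF F t →
      ∃ d, Relation.ReflTransGen (Tips.R ω F) (e, !s₀) (t, d) ∧ Tips.ahead (t, d) ∉ F := by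
    intro t ht hte hb
    obtain ⟨s, d, h⟩ := Tips.reach ht
    have hss : s = !s₀ := by
      by_contra hne
      have : s = s₀ := by cases s <;> cases s₀ <;> simp_all
      subst this
      rcases Relation.ReflTransGen.cases_head h with h' | ⟨D, hD, -⟩
      · simp only [Prod.mk.injEq] at h'
        exact hte h'.1.symm
      · exact hs hD.1
    subst hss
    refine ⟨d, h, ?_⟩
    rcases Relation.ReflTransGen.cases_tail h with h' | ⟨B, hB, hBF, hB2⟩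
    · simp only [Prod.mk.injEq] at h'
      exact absurd h'.1 hte
    · have h1 : Tips.ahead (Tips.rv (t, d)) ∈ F := by
        rw [hB2, Tips.ahead_rv_nx]; exact hBF
      have h2 := hb (!d) h1
      rwa [Bool.not_not] at h2
  obtain ⟨d, h1, h2⟩ := reach ht h hb
  obtain ⟨d', h1', h2'⟩ := reach ht' h' hb'
  exact congrArg Prod.fst (Tips.eq_of_terminal h1 h1' h2 h2')

theorem bdF_of_bdE {a : UE} (h : BdE x₀ x₁ y₀ y₁ a) : BdF (RF x₀ x₁ y₀ y₁ : Set (ℤ × ℤ)) a :=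
  fun d hd => Tips.ahead_bdE h d hd

/-! ### Strands which cross a rectangle -/

open Classical in
/-- The heights of the left ends of the strands from the left to the right side. -/
noncomputable def LT (ω : Cfg) (x₀ x₁ y₀ y₁ : ℤ) : Finset ℤ :=
  (Ico y₀ y₁).filter fun h => ∃ g, y₀ ≤ g ∧ g < y₁ ∧
    ((x₁, g, true) : UE) ∈ MM ω (RF x₀ x₁ y₀ y₁) (x₀, h, true)

theorem mem_LT {h : ℤ} : h ∈ LT ω x₀ x₁ y₀ y₁ ↔ (y₀ ≤ h ∧ h < y₁) ∧ ∃ g, y₀ ≤ g ∧ g < y₁ ∧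
    ((x₁, g, true) : UE) ∈ MM ω (RF x₀ x₁ y₀ y₁) (x₀, h, true) := by
  classical
  unfold LT
  rw [mem_filter, mem_Ico]

theorem bdE_left {h : ℤ} (h1 : y₀ ≤ h) (h2 : h < y₁) : BdE x₀ x₁ y₀ y₁ (x₀, h, true) :=
  Or.inr ⟨rfl, h1, h2, Or.inl rfl⟩

theorem bdE_right {h : ℤ} (h1 : y₀ ≤ h) (h2 : h < y₁) : BdE x₀ x₁ y₀ y₁ (x₁, h, true) :=
  Or.inr ⟨rfl, h1, h2, Or.inr rfl⟩

/-- A strand separates the strands below it from the strands above it. -/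
theorem LT_sep (hx : x₀ < x₁) {h₁ h₂ h₃ : ℤ} (H1 : h₁ ∈ LT ω x₀ x₁ y₀ y₁)
    (H2 : h₂ ∈ LT ω x₀ x₁ y₀ y₁) (H3 : h₃ ∈ LT ω x₀ x₁ y₀ y₁) (h12 : h₁ < h₂) (h23 : h₂ < h₃)
    {a b : ℤ} (ha : a = h₁ ∨ a = h₁ + 1) (hb : b = h₃ ∨ b = h₃ + 1) :
    ¬ Conn ω (RF x₀ x₁ y₀ y₁) (x₀, a) (x₀, b) := by
  intro hc
  obtain ⟨⟨k1, k2⟩, -⟩ := mem_LT.1 H1
  obtain ⟨⟨l1, l2⟩, g, g1, g2, hg⟩ := mem_LT.1 H2
  obtain ⟨⟨m1, m2⟩, -⟩ := mem_LT.1 H3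
  have hno : ∀ j, y₀ ≤ j → j < y₁ → j ≠ h₂ →
      ((x₀, j, true) : UE) ∉ MM ω (RF x₀ x₁ y₀ y₁) (x₀, h₂, true) := by
    intro j hj hj' hne hm
    have := other_unique (bdF_of_bdE (bdE_left l1 l2)) hg hm (bdF_of_bdE (bdE_right g1 g2))
      (bdF_of_bdE (bdE_left hj hj')) (by simp only [ne_eq, Prod.mk.injEq, not_and]; omega)
      (by simp only [ne_eq, Prod.mk.injEq, not_and]; omega)
    simp only [Prod.mk.injEq] at this
    omega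
  have e1 := seg_v (ω := ω) (e := (x₀, h₂, true)) (x₀ := x₀) (x₁ := x₁) (y₀ := y₀) (y₁ := y₁)
    (c := x₀) (a := a) (b := h₂) ⟨le_rfl, hx.le⟩ (by omega) (by omega) (by omega)
    (fun j j1 j2 => hno j (by omega) (by omega) (by omega))
  have e2 := seg_v (ω := ω) (e := (x₀, h₂, true)) (x₀ := x₀) (x₁ := x₁) (y₀ := y₀) (y₁ := y₁)
    (c := x₀) (a := h₂ + 1) (b := b) ⟨le_rfl, hx.le⟩ (by omega) (by omega) (by omega)
    (fun j j1 j2 => hno j (by omega) (by omega) (by omega))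
  have e3 : potR ω x₀ x₁ y₀ y₁ (x₀, h₂, true) (x₀, h₂) ≠
      potR ω x₀ x₁ y₀ y₁ (x₀, h₂, true) (x₀, h₂ + 1) :=
    (potR_joins (ω := ω) (e := (x₀, h₂, true)) (a := (x₀, h₂, true)) (p := (x₀, h₂))
      (q := (x₀, h₂ + 1)) (by simp [Joins, ua, ub]) (by unfold InR; simp only; omega)
      (by unfold InR; simp only; omega)).1 mem_MM_self
  have e4 := potR_conn (e := (x₀, h₂, true)) hc
  exact e3 (by rw [← e1, e4, e2])

/-- The lower or upper end of the left unit edge of height `h`, of parity `c`. -/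
def cend (c x₀ h : ℤ) : ℤ × ℤ := if (x₀ + h - c) % 2 = 0 then (x₀, h) else (x₀, h + 1)

theorem cend_cases (c x₀ h : ℤ) : cend c x₀ h = (x₀, h) ∨ cend c x₀ h = (x₀, h + 1) := by
  unfold cend
  split_ifs <;> simp

theorem cend_par (c x₀ h : ℤ) : ((cend c x₀ h).1 + (cend c x₀ h).2 - c) % 2 = 0 := by
  unfold cend
  split_ifs with h1
  · exact h1
  · simp only; omega

theorem cend_joins (c x₀ h : ℤ) : ∃ q, Joins ((x₀, h, true) : UE) (cend c x₀ h) q := by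
  rcases cend_cases c x₀ h with e | e
  · exact ⟨(x₀, h + 1), by rw [e]; simp [Joins, ua, ub]⟩
  · exact ⟨(x₀, h), by rw [e]; simp [Joins, ua, ub]⟩

theorem LR_of_LT {h : ℤ} (H : h ∈ LT ω x₀ x₁ y₀ y₁) :
    flip (parD c) (cfg (KC ω c x₀ x₁ y₀ y₁ (cend c x₀ h))) ∈ LR c x₀ x₁ y₀ y₁ := by
  obtain ⟨⟨k1, k2⟩, g, g1, g2, hg⟩ := mem_LT.1 H
  obtain ⟨q, hq⟩ := cend_joins c x₀ h
  obtain ⟨p, p', hj, hp, hc⟩ := MM_conn hq hg
  have hp1 : p.1 = x₁ := by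
    rcases hj with ⟨rfl, -⟩ | ⟨rfl, -⟩ <;> simp [ua, ub]
  have hc' : Conn ω (RF x₀ x₁ y₀ y₁) (cend c x₀ h) p := hc.mono SS_sub
  have h0 : (cend c x₀ h).1 = x₀ ∧ y₀ ≤ (cend c x₀ h).2 ∧ (cend c x₀ h).2 ≤ y₁ := by
    rcases cend_cases c x₀ h with e | e
    · rw [e]; exact ⟨rfl, k1, k2.le⟩
    · rw [e]; exact ⟨rfl, by simp only; omega, by simp only; omega⟩
  exact ⟨cend c x₀ h, p, h0.1, h0.2.1, h0.2.2, hp1, cend_par c x₀ h,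
    conn_KC (cend_par c x₀ h) hc'⟩

/-- Many strands give many disjoint crossings. -/
theorem wit_of_LT (hx : x₀ < x₁) {k : ℕ} (hk : 2 * k ≤ (LT ω x₀ x₁ y₀ y₁).card + 1) (c : ℤ) :
    ω ∈ Wit (parD c) (RF x₀ x₁ y₀ y₁) (LR c x₀ x₁ y₀ y₁) k := by
  classical
  set s := (LT ω x₀ x₁ y₀ y₁).orderEmbOfFin rfl with hs
  have hlt : ∀ i : Fin k, 2 * (i : ℕ) < (LT ω x₀ x₁ y₀ y₁).card := fun i => by
    have := i.2
    omega
  have hmem : ∀ j, s j ∈ LT ω x₀ x₁ y₀ y₁ := fun j => Finset.orderEmbOfFin_mem _ _ _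
  set t : Fin k → ℤ := fun i => s ⟨2 * (i : ℕ), hlt i⟩ with ht
  refine ⟨fun i => KC ω c x₀ x₁ y₀ y₁ (cend c x₀ (t i)), fun i => ?_, fun i f hf => ?_,
    fun i j hij => ?_, fun i => ?_⟩
  · intro f hf
    exact (mem_KC.1 hf).1
  · exact (mem_KC.1 hf).2.1
  · have key : ∀ i j : Fin k, i < j →
        ¬ Conn ω (RF x₀ x₁ y₀ y₁) (cend c x₀ (t i)) (cend c x₀ (t j)) := by
      intro i j hij
      have hij' : (i : ℕ) < j := hij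
      have hm : 2 * (i : ℕ) + 1 < (LT ω x₀ x₁ y₀ y₁).card := by
        have := hlt j
        omega
      have o1 : t i < s ⟨2 * (i : ℕ) + 1, hm⟩ := by
        apply s.strictMono
        exact Fin.mk_lt_mk.2 (by omega)
      have o2 : s ⟨2 * (i : ℕ) + 1, hm⟩ < t j := by
        apply s.strictMono
        exact Fin.mk_lt_mk.2 (by omega)
      rcases cend_cases c x₀ (t i) with e | e <;> rcases cend_cases c x₀ (t j) with e' | e' <;>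
        rw [e, e']
      · exact LT_sep hx (hmem _) (hmem _) (hmem _) o1 o2 (Or.inl rfl) (Or.inl rfl)
      · exact LT_sep hx (hmem _) (hmem _) (hmem _) o1 o2 (Or.inl rfl) (Or.inr rfl)
      · exact LT_sep hx (hmem _) (hmem _) (hmem _) o1 o2 (Or.inr rfl) (Or.inl rfl)
      · exact LT_sep hx (hmem _) (hmem _) (hmem _) o1 o2 (Or.inr rfl) (Or.inr rfl)
    rcases lt_or_gt_of_ne hij with h | h
    · exact KC_disjoint (key i j h)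
    · exact KC_disjoint fun hc => key j i h (Conn.symm hc)
  · exact LR_of_LT (hmem _)

theorem depOn_LT (k : ℕ) :
    DepOn (RF x₀ x₁ y₀ y₁ : Set (ℤ × ℤ)) {ω | k ≤ (LT ω x₀ x₁ y₀ y₁).card} := by
  intro ω ω' h
  have : LT ω' x₀ x₁ y₀ y₁ = LT ω x₀ x₁ y₀ y₁ := by
    ext j
    rw [mem_LT, mem_LT, MM_congr' h]
  rw [Set.mem_ofPred_eq, Set.mem_ofPred_eq, this]

/-- Tail of the number of strands which cross a rectangle. -/
theorem pr_LT_le (m : ℕ) : ∃ q : ℝ, 0 < q ∧ q < 1 ∧ ∀ (x₀ x₁ y₀ y₁ : ℤ) (W : Finset (ℤ × ℤ)),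
    x₀ < x₁ → y₀ < y₁ → y₁ - y₀ ≤ m * (x₁ - x₀) → RF x₀ x₁ y₀ y₁ ⊆ W → ∀ k : ℕ,
    pr W {ω | 2 * k ≤ (LT ω x₀ x₁ y₀ y₁).card + 1} ≤ q ^ k := by
  obtain ⟨q, hq0, hq1, h⟩ := pr_LR_lt m
  refine ⟨q, hq0, hq1, ?_⟩
  intro x₀ x₁ y₀ y₁ W hx hy hm hW k
  have h0 : DepOn (RF x₀ x₁ y₀ y₁ : Set (ℤ × ℤ))
      {ω | 2 * k ≤ (LT ω x₀ x₁ y₀ y₁).card + 1} := by
    intro ω ω' hh
    have : LT ω' x₀ x₁ y₀ y₁ = LT ω x₀ x₁ y₀ y₁ := by
      ext j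
      rw [mem_LT, mem_LT, MM_congr' hh]
    rw [Set.mem_ofPred_eq, Set.mem_ofPred_eq, this]
  rw [pr_eq_of_depOn h0 hW]
  exact ((pr_mono _ fun ω hω => wit_of_LT hx hω 0).trans
      (pr_Wit_le (depOn_LR 0 x₀ x₁ y₀ y₁) (incD_LR 0 x₀ x₁ y₀ y₁) k)).trans
    (pow_le_pow_left₀ (pr_nonneg _ _) (h 0 x₀ x₁ y₀ y₁ hx hy hm) k)

end Pool.Agent.PercN
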