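import Pool.Agent.Lib.MP_6bd702_perc6_h22.BKRect
import Pool.Agent.Lib.MP_6bd702_percw.SymB

/-!
# The number of strands which cross the annulus between the boxes of radius `r` and `2 r`

All moments are bounded, uniformly in `r`.
-/

set_option autoImplicit false

namespace Pool.Agent.PercN

open Finset Pool.Agent.Perc Pool.Agent.PercD

variable {ω : Cfg} {v : ℤ × ℤ} {r : ℤ} {a b t : UE}

/-- The faces of the annulus. -/
noncomputable def An (v : ℤ × ℤ) (r R : ℤ) : Finset (ℤ × ℤ) := BR v R \ BR v r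

theorem mem_An {f : ℤ × ℤ} {R : ℤ} : f ∈ An v r R ↔ f ∈ BR v R ∧ f ∉ BR v r := by
  unfold An
  rw [mem_sdiff]

open Classical in
/-- The inner boundary unit edges whose component in the annulus reaches the outer boundary in a unit
edge with the property `P`. -/
noncomputable def NP (P : UE → Prop) (v : ℤ × ℤ) (r R : ℤ) (ω : Cfg) : Finset UE :=
  (UB v r).filter fun b => BdR v r b ∧ ∃ a ∈ MM ω (An v r R) b, BdR v R a ∧ P a

theorem mem_NP {P : UE → Prop} {R : ℤ} (hr : 0 ≤ r) : b ∈ NP P v r R ω ↔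
    BdR v r b ∧ ∃ a ∈ MM ω (An v r R) b, BdR v R a ∧ P a := by
  classical
  unfold NP
  rw [mem_filter]
  exact ⟨fun h => h.2, fun h => ⟨(h.1.inE hr).mem_UB, h⟩⟩

/-- The number of strands which cross the annulus. -/
noncomputable def NC (v : ℤ × ℤ) (r R : ℤ) (ω : Cfg) : ℕ := (NP (fun _ => True) v r R ω).card

theorem bdF_in {R : ℤ} (h : BdR v r b) : BdF (An v r R : Set (ℤ × ℤ)) b := by
  intro d h1 h2
  rw [mem_coe, mem_An, mem_BR, mem_BR] at h1 h2
  obtain ⟨x, y, c⟩ := b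
  unfold BdR BdE at h
  cases c <;> cases d <;> simp [Tips.ahead] at h h1 h2 <;> omega

theorem bdF_out {R : ℤ} (h : BdR v R a) : BdF (An v r R : Set (ℤ × ℤ)) a := by
  intro d h1 h2
  rw [mem_coe, mem_An, mem_BR, mem_BR] at h1 h2
  obtain ⟨x, y, c⟩ := a
  unfold BdR BdE at h
  cases c <;> cases d <;> simp [Tips.ahead] at h h1 h2 <;> omega

/-- The side of the outer box on the right. -/
def PR (v : ℤ × ℤ) (R : ℤ) (a : UE) : Prop := a.2.2 = true ∧ a.1 = v.1 + R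
/-- The left side. -/
def PL (v : ℤ × ℤ) (R : ℤ) (a : UE) : Prop := a.2.2 = true ∧ a.1 = v.1 - R
/-- The upper side. -/
def PT (v : ℤ × ℤ) (R : ℤ) (a : UE) : Prop := a.2.2 = false ∧ a.2.1 = v.2 + R
/-- The lower side. -/
def PB (v : ℤ × ℤ) (R : ℤ) (a : UE) : Prop := a.2.2 = false ∧ a.2.1 = v.2 - R

theorem P_cases {R : ℤ} (h : BdR v R a) : PR v R a ∨ PL v R a ∨ PT v R a ∨ PB v R a := by
  unfold BdR BdE at h
  unfold PR PL PT PB
  rcases h with ⟨h1, -, -, h | h⟩ | ⟨h1, -, -, h | h⟩ <;> tauto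

/-- The strand from a unit edge on the right side reaches the line of the inner box inside the right
rectangle. -/
theorem right_exit {R : ℤ} (hr : 0 < r) (hR : r < R) {g : ℤ} (hg : v.2 - R ≤ g) (hg' : g < v.2 + R)
    (hb : BdR v r b) (h : b ∈ MM ω (An v r R) ((v.1 + R, g, true) : UE)) :
    ∃ h, v.2 - R ≤ h ∧ h < v.2 + R ∧
      ((v.1 + r, h, true) : UE) ∈ MM ω (RF (v.1 + r) (v.1 + R) (v.2 - R) (v.2 + R))
        ((v.1 + R, g, true) : UE) := by
  have key : ∀ b ∈ MM ω (An v r R : Set (ℤ × ℤ)) ((v.1 + R, g, true) : UE),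
      (b ∈ MM ω (RF (v.1 + r) (v.1 + R) (v.2 - R) (v.2 + R)) ((v.1 + R, g, true) : UE) ∧
        InR (v.1 + r) (v.1 + R) (v.2 - R) (v.2 + R) (ua b) ∧
        InR (v.1 + r) (v.1 + R) (v.2 - R) (v.2 + R) (ub b)) ∨
      ∃ h, v.2 - R ≤ h ∧ h < v.2 + R ∧
        ((v.1 + r, h, true) : UE) ∈ MM ω (RF (v.1 + r) (v.1 + R) (v.2 - R) (v.2 + R))
          ((v.1 + R, g, true) : UE) := by
    intro b hb
    induction hb with
    | refl =>
      left
      refine ⟨mem_MM_self, ?_, ?_⟩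
      · rw [ua_mk]; unfold InR; simp only; omega
      · rw [ub_true]; unfold InR; simp only; omega
    | tail _ hs ih =>
      rename_i b₁ b₂ _
      obtain ⟨f, hf, hm⟩ := hs
      rcases ih with ⟨ih, i1, i2⟩ | ih
      · by_cases hfR : f ∈ (RF (v.1 + r) (v.1 + R) (v.2 - R) (v.2 + R) : Set (ℤ × ℤ))
        · left
          exact ⟨MM_step hfR hm ih, IsCor.inR hfR hm.right.cor.1, IsCor.inR hfR hm.right.cor.2⟩
        · right
          rw [mem_coe, mem_An, mem_BR, mem_BR] at hf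
          rw [mem_RF'] at hfR
          obtain ⟨x, y⟩ := f
          have hs := hm.left
          unfold IsSide at hs
          simp only at hf hfR
          rcases hs with rfl | rfl | rfl | rfl
          · exfalso
            simp only [bo, ua_mk, ub_false] at i1 i2
            unfold InR at i1 i2
            simp only at i1 i2
            omega
          · exfalso
            simp only [le', ua_mk, ub_true] at i1 i2
            unfold InR at i1 i2
            simp only at i1 i2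
            omega
          · exfalso
            simp only [to', ua_mk, ub_false] at i1 i2
            unfold InR at i1 i2
            simp only at i1 i2
            omega
          · simp only [ri, ua_mk, ub_true] at i1 i2 ih
            unfold InR at i1 i2
            simp only at i1 i2
            have hx : x + 1 = v.1 + r := by omega
            rw [hx] at ih
            exact ⟨y, by omega, by omega, ih⟩
      · exact Or.inr ih
  rcases key b h with ⟨h1, h2, h3⟩ | h1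
  · obtain ⟨x, y, c⟩ := b
    unfold BdR BdE at hb
    cases c
    · exfalso
      rw [ua_mk] at h2
      rw [ub_false] at h3
      unfold InR at h2 h3
      simp at hb h2 h3
      omega
    · rw [ua_mk] at h2
      rw [ub_true] at h3
      unfold InR at h2 h3
      simp at hb h2 h3
      have hx : x = v.1 + r := by omega
      rw [hx] at h1
      exact ⟨y, by omega, by omega, h1⟩
  · exact h1

theorem card_NP_right {R : ℤ} (hr : 0 < r) (hR : r < R) :
    (NP (PR v R) v r R ω).card ≤ (LT ω (v.1 + r) (v.1 + R) (v.2 - R) (v.2 + R)).card := by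
  classical
  have H : ∀ b ∈ NP (PR v R) v r R ω, ∃ h g, v.2 - R ≤ g ∧ g < v.2 + R ∧ v.2 - R ≤ h ∧
      h < v.2 + R ∧ b ∈ MM ω (An v r R) ((v.1 + R, g, true) : UE) ∧
      ((v.1 + R, g, true) : UE) ∈ MM ω (RF (v.1 + r) (v.1 + R) (v.2 - R) (v.2 + R))
        ((v.1 + r, h, true) : UE) := by
    intro b hb
    obtain ⟨h1, a, h2, h3, h4⟩ := (mem_NP hr.le).1 hb
    obtain ⟨x, g, c⟩ := a
    unfold PR at h4
    simp only at h4
    obtain ⟨rfl, rfl⟩ := h4
    have hg : v.2 - R ≤ g ∧ g < v.2 + R := by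
      unfold BdR BdE at h3
      simp only [Bool.true_eq_false, false_and, true_and, false_or] at h3
      exact ⟨h3.1, h3.2.1⟩
    obtain ⟨h, k1, k2, k3⟩ := right_exit hr hR hg.1 hg.2 h1 (MM_symm h2)
    exact ⟨h, g, hg.1, hg.2, k1, k2, MM_symm h2, MM_symm k3⟩
  choose! h g k1 k2 k3 k4 k5 k6 using H
  refine Finset.card_le_card_of_injOn h (fun b hb => ?_) ?_
  · exact mem_coe.2 (mem_LT.2 ⟨⟨k3 b hb, k4 b hb⟩, g b, k1 b hb, k2 b hb, k6 b hb⟩)
  · intro b hb b' hb' hbb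
    have hb2 := mem_coe.1 hb
    have hb2' := mem_coe.1 hb'
    have e1 : ((v.1 + R, g b, true) : UE) = (v.1 + R, g b', true) := by
      refine other_unique (ω := ω) (bdF_of_bdE (bdE_left (k3 b hb2) (k4 b hb2))) (k6 b hb2)
        (by rw [hbb]; exact k6 b' hb2') (bdF_of_bdE (bdE_right (k1 b hb2) (k2 b hb2)))
        (bdF_of_bdE (bdE_right (k1 b' hb2') (k2 b' hb2'))) ?_ ?_
      · simp only [ne_eq, Prod.mk.injEq, not_and]; omega
      · simp only [ne_eq, Prod.mk.injEq, not_and]; omega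
    have B1 := ((mem_NP hr.le).1 hb2).1
    have B2 := ((mem_NP hr.le).1 hb2').1
    have hout : BdR v R ((v.1 + R, g b, true) : UE) := by
      unfold BdR BdE
      right
      exact ⟨rfl, k1 b hb2, k2 b hb2, Or.inr rfl⟩
    have ne : ∀ {c : UE} {g' : ℤ}, BdR v r c → c ≠ ((v.1 + R, g', true) : UE) := by
      rintro c g' hc rfl
      unfold BdR BdE at hc
      simp only [Bool.true_eq_false, false_and, true_and, false_or] at hc
      omega
    refine other_unique (ω := ω) (F := (An v r R : Set (ℤ × ℤ))) (bdF_out hout) (k5 b hb2)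
      (by rw [e1]; exact k5 b' hb2') (bdF_in B1) (bdF_in B2) (ne B1) (ne B2)

/-! ### Symmetries -/

/-- A symmetry which maps the boxes around `v` to the boxes around `v'`. -/
theorem card_NP_sym {σ : Perc.Sym} {v v' : ℤ × ℤ} {R : ℤ} {P P' : UE → Prop} (hr : 0 ≤ r)
    (M1 : σ.Maps (v.1 - r) (v.1 + r) (v.2 - r) (v.2 + r) (v'.1 - r) (v'.1 + r) (v'.2 - r) (v'.2 + r))
    (M2 : σ.Maps (v.1 - R) (v.1 + R) (v.2 - R) (v.2 + R) (v'.1 - R) (v'.1 + R) (v'.2 - R) (v'.2 + R))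
    (hP : ∀ a, P a → P' (σ.s a)) (ω : Cfg) :
    (NP P v r R ω).card ≤ (NP P' v' r R (σ.act ω)).card := by
  classical
  have hA : (An v' r R : Set (ℤ × ℤ)) = σ.f '' (An v r R : Set (ℤ × ℤ)) := by
    unfold An
    rw [Finset.coe_sdiff, Finset.coe_sdiff, Set.image_sdiff σ.f.injective]
    unfold BR
    rw [M1.img, M2.img]
  refine Finset.card_le_card_of_injOn σ.s (fun b hb => ?_) (σ.s.injective.injOn)
  obtain ⟨h1, a, h2, h3, h4⟩ := (mem_NP hr).1 (mem_coe.1 hb)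
  refine mem_coe.2 ((mem_NP hr).2 ⟨(M1.bdE b).2 h1, σ.s a, ?_, (M2.bdE a).2 h3, hP a h4⟩)
  rw [hA]
  exact σ.mem_MM_iff.2 h2

theorem maps_X' (v : ℤ × ℤ) (r : ℤ) : (symX (2 * v.1)).Maps (v.1 - r) (v.1 + r) (v.2 - r) (v.2 + r)
    (v.1 - r) (v.1 + r) (v.2 - r) (v.2 + r) := by
  have h := Perc.Sym.maps_X (2 * v.1) (v.1 - r) (v.1 + r) (v.2 - r) (v.2 + r)
  have e1 : 2 * v.1 - (v.1 + r) = v.1 - r := by ring
  have e2 : 2 * v.1 - (v.1 - r) = v.1 + r := by ring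
  rw [e1, e2] at h
  exact h

theorem card_NP_left {R : ℤ} (hr : 0 ≤ r) (ω : Cfg) :
    (NP (PL v R) v r R ω).card ≤ (NP (PR v R) v r R ((symX (2 * v.1)).act ω)).card := by
  refine card_NP_sym hr (maps_X' v r) (maps_X' v R) (fun a ha => ?_) ω
  obtain ⟨x, y, c⟩ := a
  obtain ⟨rfl, h⟩ := ha
  simp only at h
  subst h
  refine ⟨by simp [symX, hsymX], ?_⟩
  simp only [symX, hsymX, Equiv.coe_fn_mk, if_true]
  ring

theorem card_NP_top {R : ℤ} (hr : 0 ≤ r) (ω : Cfg) :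
    (NP (PT v R) v r R ω).card ≤ (NP (PR (v.2, v.1) R) (v.2, v.1) r R (symT.act ω)).card := by
  refine card_NP_sym (v' := (v.2, v.1)) hr (Perc.Sym.maps_T _ _ _ _) (Perc.Sym.maps_T _ _ _ _) (fun a ha => ?_) ω
  obtain ⟨x, y, c⟩ := a
  obtain ⟨h1, h⟩ := ha
  simp only at h h1
  subst h h1
  exact ⟨rfl, rfl⟩

theorem card_NP_bot {R : ℤ} (hr : 0 ≤ r) (ω : Cfg) :
    (NP (PB v R) v r R ω).card ≤ (NP (PL (v.2, v.1) R) (v.2, v.1) r R (symT.act ω)).card := by
  refine card_NP_sym (v' := (v.2, v.1)) hr (Perc.Sym.maps_T _ _ _ _) (Perc.Sym.maps_T _ _ _ _) (fun a ha => ?_) ω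
  obtain ⟨x, y, c⟩ := a
  obtain ⟨h1, h⟩ := ha
  simp only at h h1
  subst h h1
  exact ⟨rfl, rfl⟩

theorem card_NC_le {R : ℤ} (hr : 0 ≤ r) (ω : Cfg) :
    NC v r R ω ≤ (NP (PR v R) v r R ω).card + (NP (PL v R) v r R ω).card +
      (NP (PT v R) v r R ω).card + (NP (PB v R) v r R ω).card := by
  classical
  have h : NP (fun _ => True) v r R ω ⊆ NP (PR v R) v r R ω ∪ NP (PL v R) v r R ω ∪
      NP (PT v R) v r R ω ∪ NP (PB v R) v r R ω := by
    intro b hb
    obtain ⟨h1, a, h2, h3, -⟩ := (mem_NP hr).1 hb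
    simp only [mem_union, mem_NP hr]
    rcases P_cases h3 with h | h | h | h
    · exact Or.inl (Or.inl (Or.inl ⟨h1, a, h2, h3, h⟩))
    · exact Or.inl (Or.inl (Or.inr ⟨h1, a, h2, h3, h⟩))
    · exact Or.inl (Or.inr ⟨h1, a, h2, h3, h⟩)
    · exact Or.inr ⟨h1, a, h2, h3, h⟩
  refine (card_le_card h).trans ?_
  refine (card_union_le _ _).trans (Nat.add_le_add_right ?_ _)
  refine (card_union_le _ _).trans (Nat.add_le_add_right ?_ _)
  exact card_union_le _ _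

theorem depOn_NP (P : UE → Prop) (v : ℤ × ℤ) (r R : ℤ) (hr : 0 ≤ r) (k m : ℕ) :
    DepOn (BR v R : Set (ℤ × ℤ)) {ω | k ≤ (NP P v r R ω).card + m} := by
  intro ω ω' h
  have : NP P v r R ω' = NP P v r R ω := by
    ext b
    rw [mem_NP hr, mem_NP hr]
    have : MM ω' (An v r R : Set (ℤ × ℤ)) b = MM ω (An v r R) b :=
      MM_congr' fun f hf => h f (by
        rw [mem_coe, mem_An] at hf
        exact mem_coe.2 hf.1)
    rw [this]
  rw [Set.mem_ofPred_eq, Set.mem_ofPred_eq, this]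

theorem pr_right_le : ∃ q : ℝ, 0 < q ∧ q < 1 ∧ ∀ (v : ℤ × ℤ) (r : ℤ), 0 < r → ∀ k : ℕ,
    pr (BR v (2 * r)) {ω | 2 * k ≤ (NP (PR v (2 * r)) v r (2 * r) ω).card + 1} ≤ q ^ k := by
  obtain ⟨q, h0, h1, h⟩ := pr_LT_le 4
  refine ⟨q, h0, h1, fun v r hr k => ?_⟩
  refine (pr_mono _ fun ω hω => ?_).trans (h (v.1 + r) (v.1 + 2 * r) (v.2 - 2 * r) (v.2 + 2 * r)
    (BR v (2 * r)) (by omega) (by omega) (by push_cast; omega) ?_ k)
  · have := card_NP_right (ω := ω) (v := v) hr (R := 2 * r) (by omega)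
    rw [Set.mem_ofPred_eq] at hω ⊢
    omega
  · intro f hf
    rw [mem_BR]
    rw [mem_RF] at hf
    omega

theorem image_X (v : ℤ × ℤ) (R : ℤ) : (BR v R).image (symX (2 * v.1)).f = BR v R := by
  unfold BR
  exact (maps_X' v R).image_RF

theorem image_T (v : ℤ × ℤ) (R : ℤ) : (BR v R).image symT.f = BR (v.2, v.1) R := by
  unfold BR
  exact (Perc.Sym.maps_T _ _ _ _).image_RF

theorem pr_left_le : ∃ q : ℝ, 0 < q ∧ q < 1 ∧ ∀ (v : ℤ × ℤ) (r : ℤ), 0 < r → ∀ k : ℕ,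
    pr (BR v (2 * r)) {ω | 2 * k ≤ (NP (PL v (2 * r)) v r (2 * r) ω).card + 1} ≤ q ^ k := by
  obtain ⟨q, h0, h1, h⟩ := pr_right_le
  refine ⟨q, h0, h1, fun v r hr k => ?_⟩
  refine (pr_mono _ (B := {ω | (symX (2 * v.1)).act ω ∈
    {ω | 2 * k ≤ (NP (PR v (2 * r)) v r (2 * r) ω).card + 1}}) fun ω hω => ?_).trans ?_
  · have := card_NP_left (v := v) (R := 2 * r) hr.le ω
    rw [Set.mem_ofPred_eq] at hω
    rw [Set.mem_ofPred_eq, Set.mem_ofPred_eq]
    omega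
  · rw [Perc.Sym.pr_act _ (by rw [image_X]; exact depOn_NP _ _ _ _ hr.le _ _), image_X]
    exact h v r hr k

theorem pr_top_le : ∃ q : ℝ, 0 < q ∧ q < 1 ∧ ∀ (v : ℤ × ℤ) (r : ℤ), 0 < r → ∀ k : ℕ,
    pr (BR v (2 * r)) {ω | 2 * k ≤ (NP (PT v (2 * r)) v r (2 * r) ω).card + 1} ≤ q ^ k := by
  obtain ⟨q, h0, h1, h⟩ := pr_right_le
  refine ⟨q, h0, h1, fun v r hr k => ?_⟩
  refine (pr_mono _ (B := {ω | symT.act ω ∈
    {ω | 2 * k ≤ (NP (PR (v.2, v.1) (2 * r)) (v.2, v.1) r (2 * r) ω).card + 1}})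
    fun ω hω => ?_).trans ?_
  · have := card_NP_top (v := v) (R := 2 * r) hr.le ω
    rw [Set.mem_ofPred_eq] at hω
    rw [Set.mem_ofPred_eq, Set.mem_ofPred_eq]
    omega
  · rw [Perc.Sym.pr_act _ (by rw [image_T]; exact depOn_NP _ _ _ _ hr.le _ _), image_T]
    exact h _ r hr k

theorem pr_bot_le : ∃ q : ℝ, 0 < q ∧ q < 1 ∧ ∀ (v : ℤ × ℤ) (r : ℤ), 0 < r → ∀ k : ℕ,
    pr (BR v (2 * r)) {ω | 2 * k ≤ (NP (PB v (2 * r)) v r (2 * r) ω).card + 1} ≤ q ^ k := by
  obtain ⟨q, h0, h1, h⟩ := pr_left_le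
  refine ⟨q, h0, h1, fun v r hr k => ?_⟩
  refine (pr_mono _ (B := {ω | symT.act ω ∈
    {ω | 2 * k ≤ (NP (PL (v.2, v.1) (2 * r)) (v.2, v.1) r (2 * r) ω).card + 1}})
    fun ω hω => ?_).trans ?_
  · have := card_NP_bot (v := v) (R := 2 * r) hr.le ω
    rw [Set.mem_ofPred_eq] at hω
    rw [Set.mem_ofPred_eq, Set.mem_ofPred_eq]
    omega
  · rw [Perc.Sym.pr_act _ (by rw [image_T]; exact depOn_NP _ _ _ _ hr.le _ _), image_T]
    exact h _ r hr k

/-- Exponential tail of the number of strands which cross the annulus. -/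
theorem pr_NC_le : ∃ q : ℝ, 0 < q ∧ q < 1 ∧ ∀ (v : ℤ × ℤ) (r : ℤ) (W : Finset (ℤ × ℤ)), 0 < r →
    BR v (2 * r) ⊆ W → ∀ k : ℕ, pr W {ω | 8 * k ≤ NC v r (2 * r) ω + 7} ≤ 4 * q ^ k := by
  obtain ⟨q1, a1, b1, h1⟩ := pr_right_le
  obtain ⟨q2, a2, b2, h2⟩ := pr_left_le
  obtain ⟨q3, a3, b3, h3⟩ := pr_top_le
  obtain ⟨q4, a4, b4, h4⟩ := pr_bot_le
  set q := max (max q1 q2) (max q3 q4) with hq
  refine ⟨q, lt_of_lt_of_le a1 ((le_max_left _ _).trans (le_max_left _ _)),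
    max_lt (max_lt b1 b2) (max_lt b3 b4), fun v r W hr hW k => ?_⟩
  have hd : DepOn (BR v (2 * r) : Set (ℤ × ℤ)) {ω | 8 * k ≤ NC v r (2 * r) ω + 7} :=
    depOn_NP _ _ _ _ hr.le _ _
  rw [pr_eq_of_depOn hd hW]
  have e1 : q1 ^ k ≤ q ^ k :=
    pow_le_pow_left₀ a1.le ((le_max_left _ _).trans (le_max_left _ _)) k
  have e2 : q2 ^ k ≤ q ^ k :=
    pow_le_pow_left₀ a2.le ((le_max_right _ _).trans (le_max_left _ _)) k
  have e3 : q3 ^ k ≤ q ^ k :=
    pow_le_pow_left₀ a3.le ((le_max_left _ _).trans (le_max_right _ _)) k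
  have e4 : q4 ^ k ≤ q ^ k :=
    pow_le_pow_left₀ a4.le ((le_max_right _ _).trans (le_max_right _ _)) k
  set A1 := {ω | 2 * k ≤ (NP (PR v (2 * r)) v r (2 * r) ω).card + 1} with hA1
  set A2 := {ω | 2 * k ≤ (NP (PL v (2 * r)) v r (2 * r) ω).card + 1} with hA2
  set A3 := {ω | 2 * k ≤ (NP (PT v (2 * r)) v r (2 * r) ω).card + 1} with hA3
  set A4 := {ω | 2 * k ≤ (NP (PB v (2 * r)) v r (2 * r) ω).card + 1} with hA4
  have hu : pr (BR v (2 * r)) {ω | 8 * k ≤ NC v r (2 * r) ω + 7} ≤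
      pr (BR v (2 * r)) (((A1 ∪ A2) ∪ A3) ∪ A4) := by
    refine pr_mono _ fun ω hω => ?_
    rw [Set.mem_ofPred_eq] at hω
    have := card_NC_le (v := v) (R := 2 * r) hr.le ω
    simp only [Set.mem_union, hA1, hA2, hA3, hA4, Set.mem_ofPred_eq]
    omega
  have u1 := pr_union_le (BR v (2 * r)) ((A1 ∪ A2) ∪ A3) A4
  have u2 := pr_union_le (BR v (2 * r)) (A1 ∪ A2) A3
  have u3 := pr_union_le (BR v (2 * r)) A1 A2
  linarith [h1 v r hr k, h2 v r hr k, h3 v r hr k, h4 v r hr k]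

/-- Moments from an exponential tail. -/
theorem moment_of_tail {q : ℝ} (hq0 : 0 < q) (hq1 : q < 1) (p : ℕ) : ∃ C : ℝ, 0 < C ∧
    ∀ (W : Finset (ℤ × ℤ)) (N : Cfg → ℕ),
      (∀ k : ℕ, pr W {ω | 8 * k ≤ N ω + 7} ≤ 4 * q ^ k) →
      (∑ T ∈ W.powerset, (N (cfg T) : ℝ) ^ p) / 2 ^ W.card ≤ C := by
  classical
  set f : ℕ → ℝ := fun k => (8 * ((k : ℝ) + 1)) ^ p * (4 * q ^ (k + 1)) with hf
  have hfn : ∀ k, 0 ≤ f k := fun k => by positivity
  have hsum : Summable f := by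
    have h1 : Summable fun k : ℕ => ((k : ℝ) ^ p * q ^ k : ℝ) :=
      summable_pow_mul_geometric_of_norm_lt_one p (by rw [Real.norm_of_nonneg hq0.le]; exact hq1)
    have h2 : Summable fun k : ℕ => (((k + 1 : ℕ) : ℝ) ^ p * q ^ (k + 1) : ℝ) :=
      (summable_nat_add_iff 1).2 h1
    refine (h2.mul_left (8 ^ p * 4)).congr fun k => ?_
    rw [hf]
    push_cast
    rw [mul_pow]
    ring
  refine ⟨1 + ∑' k, f k, by
    have : 0 ≤ ∑' k, f k := tsum_nonneg hfn
    linarith, fun W N hN => ?_⟩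
  have hpow : (0 : ℝ) < 2 ^ W.card := by positivity
  -- a bound for `N`
  obtain ⟨K, hK⟩ : ∃ K : ℕ, ∀ T ∈ W.powerset, N (cfg T) ≤ K :=
    ⟨W.powerset.sup fun T => N (cfg T), fun T hT => Finset.le_sup (f := fun T => N (cfg T)) hT⟩
  have h1 : ∀ T ∈ W.powerset, ((N (cfg T) : ℝ)) ^ p ≤
      1 + ∑ k ∈ range (K + 1), (8 * ((k : ℝ) + 1)) ^ p *
        (if cfg T ∈ {ω | 8 * (k + 1) ≤ N ω + 7} then (1 : ℝ) else 0) := by
    intro T hT
    have hnn : ∀ k ∈ range (K + 1), (0 : ℝ) ≤ (8 * ((k : ℝ) + 1)) ^ p *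
        (if cfg T ∈ {ω | 8 * (k + 1) ≤ N ω + 7} then (1 : ℝ) else 0) := by
      intro k _
      split_ifs
      · positivity
      · rw [mul_zero]
    by_cases h0 : N (cfg T) = 0
    · have h2 : (N (cfg T) : ℝ) ^ p ≤ 1 := by
        rw [h0]
        rcases Nat.eq_zero_or_pos p with h | h
        · subst h; simp
        · rw [Nat.cast_zero, zero_pow h.ne']; norm_num
      have := Finset.sum_nonneg hnn
      linarith
    · set k := (N (cfg T) - 1) / 8 with hk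
      have hkK : k ∈ range (K + 1) := by
        rw [mem_range]
        have := hK T hT
        omega
      have h3 : (N (cfg T) : ℝ) ≤ 8 * ((k : ℝ) + 1) := by
        have : N (cfg T) ≤ 8 * (k + 1) := by omega
        exact_mod_cast this
      have h4 : cfg T ∈ {ω | 8 * (k + 1) ≤ N ω + 7} := by
        rw [Set.mem_ofPred_eq]
        omega
      have h5 := Finset.single_le_sum hnn hkK
      simp only [if_pos h4, mul_one] at h5
      have h6 : (N (cfg T) : ℝ) ^ p ≤ (8 * ((k : ℝ) + 1)) ^ p :=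
        pow_le_pow_left₀ (Nat.cast_nonneg _) h3 p
      linarith
  calc (∑ T ∈ W.powerset, (N (cfg T) : ℝ) ^ p) / 2 ^ W.card
      ≤ (∑ T ∈ W.powerset, (1 + ∑ k ∈ range (K + 1), (8 * ((k : ℝ) + 1)) ^ p *
        (if cfg T ∈ {ω | 8 * (k + 1) ≤ N ω + 7} then (1 : ℝ) else 0))) / 2 ^ W.card :=
        div_le_div_of_nonneg_right (Finset.sum_le_sum h1) hpow.le
    _ = 1 + ∑ k ∈ range (K + 1), (8 * ((k : ℝ) + 1)) ^ p *
        pr W {ω | 8 * (k + 1) ≤ N ω + 7} := by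
        rw [Finset.sum_add_distrib, Finset.sum_const, card_powerset, nsmul_eq_mul, mul_one,
          Finset.sum_comm, add_div]
        push_cast
        rw [div_self hpow.ne', Finset.sum_div]
        congr 1
        refine Finset.sum_congr rfl fun k _ => ?_
        rw [← Finset.mul_sum, mul_div_assoc, ProbA.pr_eq_sum]
        congr!
    _ ≤ 1 + ∑ k ∈ range (K + 1), f k := by
        refine add_le_add le_rfl (Finset.sum_le_sum fun k _ => ?_)
        exact mul_le_mul_of_nonneg_left (hN (k + 1)) (by positivity)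
    _ ≤ 1 + ∑' k, f k := add_le_add le_rfl (hsum.sum_le_tsum _ fun k _ => hfn k)

/-- All moments of the number of strands which cross the annulus are bounded. -/
theorem moment_NC (p : ℕ) : ∃ C : ℝ, 0 < C ∧ ∀ (v : ℤ × ℤ) (r : ℤ) (W : Finset (ℤ × ℤ)), 0 < r →
    BR v (2 * r) ⊆ W →
    (∑ T ∈ W.powerset, (NC v r (2 * r) (cfg T) : ℝ) ^ p) / 2 ^ W.card ≤ C := by
  obtain ⟨q, hq0, hq1, h⟩ := pr_NC_le
  obtain ⟨C, hC, hC'⟩ := moment_of_tail hq0 hq1 p
  exact ⟨C, hC, fun v r W hr hW => hC' W _ fun k => h v r W hr hW k⟩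

end Pool.Agent.PercN
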